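import Mathlib
import Pool.Agent.L0h97.Bike.Geom

/-!
# The hyperbolic-to-elliptic transition of the bicycle monodromy of a convex front track

Let `φ` be the tangent angle and `v` the speed of the front track, `l = 1 / ℓ`, so that the no-skid
equation is `θ' = l v sin (φ - θ)`; write `Δ = θ T - θ 0`.

* `Trk.key` (in `Bike.Core`): if `θ 0 = φ 0`, then `Δ > 0`. This is where convexity is used. Let
  `g = - X sin θ + Y cos θ`; while `φ - θ` runs from `0` to `π`, `θ` increases to its maximum, and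
  it decreases while `φ - θ` runs from `π` to `2 π`. For `t` in the first part let `b t` be the time
  of the second part with `θ (b t) = θ t`. The function `Z t = g (b t) - g t` vanishes at the
  maximum of `θ`, and strict convexity gives `Z' > - l v cos (φ - θ) Z`, so that `Z < 0` on the
  first part, but `Δ ≤ 0` would give `Z ≥ 0` at the start.
* `Trk.turn_pos`: hence `Δ > 0` for all solutions (otherwise some solution is periodic).
* `Trk.mono_l`: if `Δ ≥ 2 π` for some solution, then `Δ > 2 π` for some solution for any shorter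
  bicycle.
* `Trk.short`, `Trk.long`: for short bicycles some solution has `Δ > 2 π`, for long ones all
  solutions have `Δ < 2 π`.
* The monodromy is elliptic if `0 < Δ < 2 π` for all solutions, and hyperbolic if some solution has
  `Δ > 2 π` and some other one `0 < Δ < 2 π`.
-/

set_option autoImplicit false

open Set Real

namespace Pool.Agent.Results.MP_08099c_gt.HyperbolicElliptic

open Pool.Agent.L0h97.Bike

/-- `Γ` is a simple strictly convex closed front track with period `T`: a regular, `T`-periodic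
curve of class `C²` in the plane, injective on `[0, T)`, whose image is the boundary of a compact
strictly convex set `K` with nonempty interior. -/
structure IsConvexTrack (Γ : ℝ → ℝ × ℝ) (T : ℝ) : Prop where
  period_pos : 0 < T
  smooth : ContDiff ℝ 2 Γ
  periodic : ∀ t, Γ (t + T) = Γ t
  regular : ∀ t, deriv Γ t ≠ 0
  simple : Set.InjOn Γ (Set.Ico 0 T)
  convex : ∃ K : Set (ℝ × ℝ), IsCompact K ∧ StrictConvex ℝ K ∧ (interior K).Nonempty ∧
    frontier K = Set.range Γ

/-- The no-skid equation `ℓ θ' = Γ' · (- sin θ, cos θ)` for a bicycle of length `ℓ` whose front end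
follows `Γ`; the rear end is `Γ - ℓ (cos θ, sin θ)`. -/
def IsSteering (Γ : ℝ → ℝ × ℝ) (ℓ : ℝ) (θ : ℝ → ℝ) : Prop :=
  ∀ t, DifferentiableAt ℝ θ t ∧
    ℓ * deriv θ t = (deriv Γ t).1 * (-sin (θ t)) + (deriv Γ t).2 * cos (θ t)

/-- A vector spanning the line of `ℝ²` which corresponds to the point `θ` of the circle
`ℝ / 2 π ℤ` under the usual identification of the circle with the projective line. -/
noncomputable def halfDir (θ : ℝ) : Fin 2 → ℝ := ![cos (θ / 2), sin (θ / 2)]

/-- `M ∈ SL(2, ℝ)` is a lift of the monodromy `θ 0 ↦ θ T` of `Γ` for the length `ℓ`. -/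
def IsMonodromy (Γ : ℝ → ℝ × ℝ) (T ℓ : ℝ) (M : Matrix.SpecialLinearGroup (Fin 2) ℝ) : Prop :=
  ∀ θ : ℝ → ℝ, IsSteering Γ ℓ θ → ∃ c : ℝ, M.1.mulVec (halfDir (θ 0)) = c • halfDir (θ T)

lemma steering_iff {Γ : ℝ → ℝ × ℝ} {ℓ : ℝ} (hℓ : 0 < ℓ) (θ : ℝ → ℝ) :
    IsSteering Γ ℓ θ ↔ Steer (fun t => (deriv Γ t).1) (fun t => (deriv Γ t).2) (1 / ℓ) θ := by
  constructor
  · intro h t
    obtain ⟨h1, h2⟩ := h t
    refine h1.hasDerivAt.congr_deriv ?_
    field_simp
    linarith
  · intro h t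
    refine ⟨(h t).differentiableAt, ?_⟩
    rw [(h t).deriv]
    field_simp
    ring

lemma mono_iff {Γ : ℝ → ℝ × ℝ} {ℓ T : ℝ} (hℓ : 0 < ℓ) (M : Matrix.SpecialLinearGroup (Fin 2) ℝ) :
    IsMonodromy Γ T ℓ M ↔ Mono (fun t => (deriv Γ t).1) (fun t => (deriv Γ t).2) T (1 / ℓ)
      (M.1 0 0) (M.1 0 1) (M.1 1 0) (M.1 1 1) := by
  have hdet : M.1 0 0 * M.1 1 1 - M.1 0 1 * M.1 1 0 = 1 := by
    rw [← Matrix.det_fin_two, M.2]
  unfold IsMonodromy Mono
  simp only [steering_iff hℓ]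
  constructor
  · intro h
    refine ⟨hdet, fun θ hθ => ?_⟩
    obtain ⟨c, hc⟩ := h θ hθ
    refine ⟨c, ?_, ?_⟩
    · have := congrFun hc 0
      simpa [Matrix.mulVec, dotProduct, Fin.sum_univ_two, halfDir] using this
    · have := congrFun hc 1
      simpa [Matrix.mulVec, dotProduct, Fin.sum_univ_two, halfDir] using this
  · rintro ⟨-, h⟩ θ hθ
    obtain ⟨c, h1, h2⟩ := h θ hθ
    refine ⟨c, ?_⟩
    ext i
    fin_cases i
    · simpa [Matrix.mulVec, dotProduct, Fin.sum_univ_two, halfDir] using h1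
    · simpa [Matrix.mulVec, dotProduct, Fin.sum_univ_two, halfDir] using h2

/-- **Theorem.** For every simple strictly convex closed front track there is a length `ℓ₀ > 0` such
that the monodromy is hyperbolic for `ℓ < ℓ₀` and elliptic for `ℓ > ℓ₀`. -/
theorem result (Γ : ℝ → ℝ × ℝ) (T : ℝ) (hΓ : IsConvexTrack Γ T) :
    ∃ ℓ₀ : ℝ, 0 < ℓ₀ ∧ ∀ ℓ : ℝ, 0 < ℓ →
      (∃ M, IsMonodromy Γ T ℓ M) ∧
      ∀ M, IsMonodromy Γ T ℓ M →
        (ℓ < ℓ₀ → 2 < |M.1.trace|) ∧ (ℓ₀ < ℓ → |M.1.trace| < 2) := by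
  have H : ConvexTrack Γ T := ⟨hΓ.1, hΓ.2, hΓ.3, hΓ.4, hΓ.5, hΓ.6⟩
  obtain ⟨l₀, hl₀, h1, h2, h3⟩ := H.reg
  have hpc : Continuous fun t => (deriv Γ t).1 := by
    have := H.contDiff_deriv.continuous
    fun_prop
  have hqc : Continuous fun t => (deriv Γ t).2 := by
    have := H.contDiff_deriv.continuous
    fun_prop
  refine ⟨1 / l₀, by positivity, fun ℓ hℓ => ⟨?_, fun M hM => ?_⟩⟩
  · obtain ⟨θ₁, s1, s2⟩ := h3 (1 / ℓ) 0
    obtain ⟨θ₂, s3, s4⟩ := h3 (1 / ℓ) π
    obtain ⟨a, b, c, d, hm⟩ := exists_mono (T := T) hpc hqc s1 s2 s3 s4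
    have hdet : (!![a, b; c, d]).det = 1 := by
      rw [Matrix.det_fin_two_of]
      exact hm.1
    exact ⟨⟨!![a, b; c, d], hdet⟩, (mono_iff hℓ _).2 hm⟩
  · rw [mono_iff hℓ] at hM
    rw [Matrix.trace_fin_two]
    constructor
    · intro hlt
      have hl : l₀ < 1 / ℓ := by
        rw [lt_div_iff₀ hl₀] at hlt
        rw [lt_div_iff₀ hℓ]
        linarith
      obtain ⟨⟨θ, η, a1, a2, a3, a4, a5⟩, ζ, b1, b2⟩ := h2 _ hl
      exact hM.hyperbolic a1 a2 b1 a3 a4 b2 a5
    · intro hlt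
      have hl : 1 / ℓ < l₀ := by
        rw [div_lt_iff₀ hl₀] at hlt
        rw [div_lt_iff₀ hℓ]
        linarith
      by_contra hcon
      push Not at hcon
      obtain ⟨θ, c1, c2⟩ := hM.closed (h3 (1 / ℓ)) hcon
      exact h1 _ (by positivity) hl θ c1 c2

end Pool.Agent.Results.MP_08099c_gt.HyperbolicElliptic
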